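import Pool.Agent.Y912.BS.Main

/-!
# Basic sets without box dimension in every dimension `n ≥ 6`, with gaps growing linearly in `n`

The manifold is `M = (ℝ⁴ × 𝕋²)^k × ℝ^m`, of dimension `6 k + m`, with its flat metric; the diffeomorphism is
the product of `k` copies of the diffeomorphism of the starting result and of `y ↦ 2 y`, the basic set the
product of `k` copies of its basic set (a full shift, so that the product is transitive) and of `{0}`.
-/

set_option autoImplicit false

namespace Pool.Agent.Results.MP_e6529f_an.LargeGapAllDimensions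

open Pool.Agent.Results.MP_e6529f_an.BasicSetNoBoxDimension
open Pool.Agent.Y912.BS

/-- The lower box dimension of `E` is at most `s`, the upper one at least `t`, and they are different. -/
def Gap {M : Type} [PseudoMetricSpace M] (E : Set M) (s t : ℝ) : Prop :=
  lowerBoxDim E < upperBoxDim E ∧ lowerBoxDim E ≤ (s : EReal) ∧ (t : EReal) ≤ upperBoxDim E

/-- **Theorem.** There are linearly independent `v, w` in the plane and real numbers `a < b` such that for all
`k ≥ 1` and `m ≥ 0` the flat manifold `M = (ℝ⁴ × ℝ²/(ℤv + ℤw))^k × ℝ^m` of dimension `6 k + m` has a `C^∞`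
diffeomorphism `f` with a basic set `Λ` such that `Λ` and all its local unstable slices `Λ ∩ W^u_ε(x)`
(`x ∈ Λ`, `ε > 0`) have lower box dimension at most `k a` and upper box dimension at least `k b`, and the
two dimensions are different. -/
theorem result : ∃ (v w : Plane) (a b : ℝ), LinearIndependent ℝ ![v, w] ∧ a < b ∧
    ∀ k m : ℕ, 1 ≤ k → ∃ (f : Man k m v w ≃ Man k m v w) (Λ : Set (Man k m v w)),
      IsDiffeo (projOf k m v w) f ∧ IsBasic (projOf k m v w) f Λ ∧ Gap Λ (k * a) (k * b) ∧
        ∀ x ∈ Λ, ∀ ε : ℝ, 0 < ε → Gap (Λ ∩ unstable f ε x) (k * a) (k * b) := by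
  have hab := H342R3.SA.al1_lt_be1
  have key : ∀ (k : ℕ), 1 ≤ k → ∀ (M : Type) [PseudoMetricSpace M] (E : Set M),
      (lowerBoxDim E ≤ ((k * ((2 * H342R3.SA.al1 + H342R3.SA.be1) / 3) : ℝ) : EReal) ∧
        ((k * ((H342R3.SA.al1 + 2 * H342R3.SA.be1) / 3) : ℝ) : EReal) ≤ upperBoxDim E) →
      Gap E (k * ((2 * H342R3.SA.al1 + H342R3.SA.be1) / 3)) (k * ((H342R3.SA.al1 + 2 * H342R3.SA.be1) / 3)) := by
    intro k hk M _ E h
    refine ⟨h.1.trans_lt (lt_of_lt_of_le ?_ h.2), h.1, h.2⟩
    rw [EReal.coe_lt_coe_iff]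
    have hk' : (0 : ℝ) < k := by exact_mod_cast hk
    exact mul_lt_mul_of_pos_left (by linarith) hk'
  refine ⟨H342R3.SC.v1, H342R3.SC.v2, (2 * H342R3.SA.al1 + H342R3.SA.be1) / 3,
    (H342R3.SA.al1 + 2 * H342R3.SA.be1) / 3, H342R3.SC.lin_indep, by linarith, fun k m hk =>
    ⟨pr k m, LL' k m, diffeo, basic, key k hk _ _ (dims_whole (by linarith) (by linarith)),
      fun x hx ε hε => key k hk _ _ (dims_slice (by linarith) (by linarith) hx hε)⟩⟩

end Pool.Agent.Results.MP_e6529f_an.LargeGapAllDimensions
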